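import Mathlib

/-!
# The lattice positions that touch a unit strip on one side

Combinatorial part of the proof that vertically convex lattice-catching sets of a unit strip with
flat top and bottom have area at least `4 / 3`.
-/

set_option autoImplicit false

namespace Pool.Agent.H704.LC

/-- The weak form of `lattice-catching` used in the proof. -/
def Catch (B T : ℝ → ℝ) : Prop :=
  ∀ c s x y : ℝ, c ^ 2 + s ^ 2 = 1 → ∃ a b : ℤ,
    |x + a * c - b * s| ≤ 1 / 2 ∧ B (x + a * c - b * s) ≤ y + a * s + b * c ∧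
      y + a * s + b * c ≤ T (x + a * c - b * s)

/-- The oscillation condition. -/
def Flat (F : ℝ → ℝ) : Prop :=
  ∀ x ∈ Set.Icc (-1 / 2 : ℝ) (1 / 2), ∀ y ∈ Set.Icc (-1 / 2 : ℝ) (1 / 2),
    |F x - F y| ≤ max (7 / 10) |x - y|

theorem Catch.reflect {B T : ℝ → ℝ} (h : Catch B T) :
    Catch (fun x => - T (-x)) (fun x => - B (-x)) := by
  intro c s x y hcs
  obtain ⟨a, b, h1, h2, h3⟩ := h c s (-x) (-y) hcs
  refine ⟨-a, -b, ?_, ?_, ?_⟩
  · have e : x + ((-a : ℤ) : ℝ) * c - ((-b : ℤ) : ℝ) * s = -(-x + a * c - b * s) := by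
      push_cast; ring
    rw [e, abs_neg]; exact h1
  · have e : -(x + ((-a : ℤ) : ℝ) * c - ((-b : ℤ) : ℝ) * s) = (-x + a * c - b * s) := by
      push_cast; ring
    simp only [e]
    have e2 : y + ((-a : ℤ) : ℝ) * s + ((-b : ℤ) : ℝ) * c = -(-y + a * s + b * c) := by
      push_cast; ring
    rw [e2]; linarith
  · have e : -(x + ((-a : ℤ) : ℝ) * c - ((-b : ℤ) : ℝ) * s) = (-x + a * c - b * s) := by
      push_cast; ring
    simp only [e]
    have e2 : y + ((-a : ℤ) : ℝ) * s + ((-b : ℤ) : ℝ) * c = -(-y + a * s + b * c) := by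
      push_cast; ring
    rw [e2]; linarith

theorem Flat.reflect {F : ℝ → ℝ} (h : Flat F) : Flat (fun x => - F (-x)) := by
  intro x hx y hy
  have := h (-x) ⟨by linarith [hx.2], by linarith [hx.1]⟩ (-y) ⟨by linarith [hy.2], by linarith [hy.1]⟩
  have e1 : |-F (-x) - -F (-y)| = |F (-x) - F (-y)| := by
    rw [← abs_neg]; congr 1; ring
  have e2 : |x - y| = |-x - -y| := by
    rw [← abs_neg]; congr 1; ring
  rw [e1, e2]; exact this

/-- `v_y ≥ |v_x|` for `v = m (c, s) + n (-s, c)`, `m, n ≥ 0`, in the admissible horizontal range. -/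
theorem steep {c s : ℝ} (hc : 0 < c) (hs : 0 < s) (hcs : c ^ 2 + s ^ 2 = 1) (m n : ℤ)
    (hm : 0 ≤ m) (hn : 0 ≤ n)
    (hr : (m : ℝ) * c - n * s < s) (hl : (n : ℝ) * s - m * c < 1 - s + 2 / 5 * s) :
    |(m : ℝ) * c - n * s| ≤ m * s + n * c := by
  have hm' : (0 : ℝ) ≤ m := by exact_mod_cast hm
  have hn' : (0 : ℝ) ≤ n := by exact_mod_cast hn
  rw [abs_le]
  constructor
  · -- n s - m c ≤ m s + n c
    rcases le_or_gt s c with h | h
    · nlinarith
    · -- s > c
      have hs2 : (1 : ℝ) / 2 < s ^ 2 := by nlinarith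
      have hs7 : (7 : ℝ) / 10 < s := by nlinarith
      have hnm : n ≤ m := by
        by_contra hcon
        have : m + 1 ≤ n := by omega
        have h1 : (m : ℝ) + 1 ≤ n := by exact_mod_cast this
        -- n s - m c ≥ (m+1) s - m c ≥ s
        nlinarith
      have hnm' : (n : ℝ) ≤ m := by exact_mod_cast hnm
      nlinarith
  · rcases le_or_gt c s with h | h
    · nlinarith
    · have hmn : m ≤ n := by
        by_contra hcon
        have : n + 1 ≤ m := by omega
        have h1 : (n : ℝ) + 1 ≤ m := by exact_mod_cast this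
        nlinarith
      have hmn' : (m : ℝ) ≤ n := by exact_mod_cast hmn
      nlinarith

theorem high {c s : ℝ} (hc : 0 < c) (hs : 0 < s) (hcs : c ^ 2 + s ^ 2 = 1) (m n : ℤ)
    (hm : 0 ≤ m) (hn : 0 ≤ n) (h : |(m : ℝ) * c - n * s| ≤ m * s + n * c) (hne : ¬ (m = 0 ∧ n = 0)) :
    (7 : ℝ) / 10 ≤ m * s + n * c := by
  have hm' : (0 : ℝ) ≤ m := by exact_mod_cast hm
  have hn' : (0 : ℝ) ≤ n := by exact_mod_cast hn
  have h1 : (1 : ℝ) ≤ (m : ℝ) ^ 2 + (n : ℝ) ^ 2 := by
    have : (1 : ℤ) ≤ m ^ 2 + n ^ 2 := by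
      rcases Classical.em (m = 0) with h0 | h0
      · have hn1 : 1 ≤ n := by
          rcases Classical.em (n = 0) with h2 | h2
          · exact absurd ⟨h0, h2⟩ hne
          · omega
        nlinarith [sq_nonneg m]
      · have hm1 : 1 ≤ m := by omega
        nlinarith [sq_nonneg n]
    exact_mod_cast this
  have h2 : ((m : ℝ) * c - n * s) ^ 2 ≤ (m * s + n * c) ^ 2 := by
    rw [← sq_abs ((m : ℝ) * c - n * s)]
    exact pow_le_pow_left₀ (abs_nonneg _) h 2
  have h3 : ((m : ℝ) * c - n * s) ^ 2 + (m * s + n * c) ^ 2 = (m : ℝ) ^ 2 + (n : ℝ) ^ 2 := by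
    have : ((m : ℝ) * c - n * s) ^ 2 + (m * s + n * c) ^ 2
        = ((m : ℝ) ^ 2 + (n : ℝ) ^ 2) * (c ^ 2 + s ^ 2) := by ring
    rw [this, hcs, mul_one]
  have h4 : 0 ≤ (m : ℝ) * s + n * c := by positivity
  by_contra hlt
  push Not at hlt
  nlinarith

theorem ineq_delta {B T : ℝ → ℝ} (hC : Catch B T) (hB : Flat B) (hT : Flat T) {c s δ : ℝ}
    (hc : 0 < c) (hs : 0 < s) (hcs : c ^ 2 + s ^ 2 = 1) (hδ : 0 < δ) (h1 : δ < c + s - 1)
    (h2 : δ < 2 / 5 * s) (h3 : δ < 2 / 5 * c) :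
    c + s ≤ T (1 / 2 - s + δ) - B (1 / 2 - c + δ) := by
  by_contra hcon
  push Not at hcon
  have hs1 : s ≤ 1 := by nlinarith
  have hc1 : c ≤ 1 := by nlinarith
  set p := 1 / 2 - s + δ with hp
  set q := 1 / 2 - c + δ with hq
  have hpI : p ∈ Set.Icc (-1 / 2 : ℝ) (1 / 2) := ⟨by linarith, by linarith⟩
  have hqI : q ∈ Set.Icc (-1 / 2 : ℝ) (1 / 2) := ⟨by linarith, by linarith⟩
  set y0 := (T p - c + B q + s) / 2 with hy0
  have hTp : T p < y0 + c := by linarith
  have hBq : y0 - s < B q := by linarith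
  obtain ⟨a, b, e1, e2, e3⟩ := hC c s (1 / 2 + δ) y0 hcs
  rw [abs_le] at e1
  have hXI : (1 / 2 + δ + a * c - b * s) ∈ Set.Icc (-1 / 2 : ℝ) (1 / 2) :=
    ⟨by linarith [e1.1], e1.2⟩
  rcases le_or_gt 0 a with ha | ha
  · have ha' : (0 : ℝ) ≤ a := by exact_mod_cast ha
    rcases le_or_gt b 0 with hb | hb
    · have hb' : (b : ℝ) ≤ 0 := by exact_mod_cast hb
      nlinarith [e1.2, mul_nonneg ha' hc.le, mul_nonneg (neg_nonneg.mpr hb') hs.le]
    · -- upper family
      have hn : 0 ≤ b - 1 := by omega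
      have eX : 1 / 2 + δ + a * c - b * s = p + ((a : ℝ) * c - ((b - 1 : ℤ) : ℝ) * s) := by
        push_cast; rw [hp]; ring
      have eY : y0 + a * s + b * c = y0 + c + ((a : ℝ) * s + ((b - 1 : ℤ) : ℝ) * c) := by
        push_cast; ring
      rw [eX] at e1 e3 hXI
      rw [eY] at e3
      have hst := steep hc hs hcs a (b - 1) ha hn (by linarith [e1.2]) (by linarith [e1.1])
      rcases Classical.em (a = 0 ∧ b - 1 = 0) with h0 | h0
      · rw [h0.1, h0.2] at e3
        simp at e3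
        linarith
      · have hh := high hc hs hcs a (b - 1) ha hn hst h0
        have hF := hT _ hXI p hpI
        rw [add_sub_cancel_left] at hF
        have hmax : max (7 / 10) |(a : ℝ) * c - ((b - 1 : ℤ) : ℝ) * s|
            ≤ (a : ℝ) * s + ((b - 1 : ℤ) : ℝ) * c := max_le hh hst
        have := (abs_le.mp (hF.trans hmax)).2
        linarith
  · have ha' : (a : ℝ) ≤ -1 := by
      have : a ≤ -1 := by omega
      exact_mod_cast this
    rcases le_or_gt b 0 with hb | hb
    · -- lower family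
      have hm : 0 ≤ -1 - a := by omega
      have hn : 0 ≤ -b := by omega
      have eX : 1 / 2 + δ + a * c - b * s
          = q + (((-b : ℤ) : ℝ) * s - ((-1 - a : ℤ) : ℝ) * c) := by
        push_cast; rw [hq]; ring
      have eY : y0 + a * s + b * c
          = y0 - s - (((-b : ℤ) : ℝ) * c + ((-1 - a : ℤ) : ℝ) * s) := by
        push_cast; ring
      rw [eX] at e1 e2 hXI
      rw [eY] at e2
      have hcs' : s ^ 2 + c ^ 2 = 1 := by linarith
      have hst := steep hs hc hcs' (-b) (-1 - a) hn hm (by linarith [e1.2]) (by linarith [e1.1])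
      rcases Classical.em (-b = 0 ∧ -1 - a = 0) with h0 | h0
      · rw [h0.1, h0.2] at e2
        simp at e2
        linarith
      · have hh := high hs hc hcs' (-b) (-1 - a) hn hm hst h0
        have hF := hB _ hXI q hqI
        rw [add_sub_cancel_left] at hF
        have hmax : max (7 / 10) |((-b : ℤ) : ℝ) * s - ((-1 - a : ℤ) : ℝ) * c|
            ≤ ((-b : ℤ) : ℝ) * c + ((-1 - a : ℤ) : ℝ) * s := max_le hh hst
        have := (abs_le.mp (hF.trans hmax)).1
        linarith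
    · have hb' : (1 : ℝ) ≤ b := by
        have : 1 ≤ b := by omega
        exact_mod_cast this
      nlinarith [e1.1, mul_nonneg (by linarith : (0 : ℝ) ≤ -1 - a) hc.le,
        mul_nonneg (by linarith : (0 : ℝ) ≤ b - 1) hs.le]

/-- The first touching inequality. -/
theorem ineq_one {B T : ℝ → ℝ} (hC : Catch B T) (hB : Flat B) (hT : Flat T)
    (hBc : ContinuousOn B (Set.Icc (-1 / 2) (1 / 2)))
    (hTc : ContinuousOn T (Set.Icc (-1 / 2) (1 / 2))) {c s : ℝ}
    (hc : 0 < c) (hs : 0 < s) (hcs : c ^ 2 + s ^ 2 = 1) :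
    c + s ≤ T (1 / 2 - s) - B (1 / 2 - c) := by
  have hs1 : s < 1 := by nlinarith
  have hc1 : c < 1 := by nlinarith
  have hT1 : ContinuousAt T (1 / 2 - s) :=
    hTc.continuousAt (Icc_mem_nhds (by linarith) (by linarith))
  have hB1 : ContinuousAt B (1 / 2 - c) :=
    hBc.continuousAt (Icc_mem_nhds (by linarith) (by linarith))
  have t1 : Filter.Tendsto (fun δ : ℝ => T (1 / 2 - s + δ)) (nhdsWithin 0 (Set.Ioi 0))
      (nhds (T (1 / 2 - s))) := by
    have : Filter.Tendsto (fun δ : ℝ => 1 / 2 - s + δ) (nhdsWithin 0 (Set.Ioi 0))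
        (nhds (1 / 2 - s)) := by
      have h0 : Filter.Tendsto (fun δ : ℝ => 1 / 2 - s + δ) (nhds 0) (nhds (1 / 2 - s + 0)) :=
        (continuous_const.add continuous_id).tendsto 0
      rw [add_zero] at h0
      exact h0.mono_left nhdsWithin_le_nhds
    exact hT1.tendsto.comp this
  have t2 : Filter.Tendsto (fun δ : ℝ => B (1 / 2 - c + δ)) (nhdsWithin 0 (Set.Ioi 0))
      (nhds (B (1 / 2 - c))) := by
    have : Filter.Tendsto (fun δ : ℝ => 1 / 2 - c + δ) (nhdsWithin 0 (Set.Ioi 0))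
        (nhds (1 / 2 - c)) := by
      have h0 : Filter.Tendsto (fun δ : ℝ => 1 / 2 - c + δ) (nhds 0) (nhds (1 / 2 - c + 0)) :=
        (continuous_const.add continuous_id).tendsto 0
      rw [add_zero] at h0
      exact h0.mono_left nhdsWithin_le_nhds
    exact hB1.tendsto.comp this
  have hpos : 0 < c + s - 1 := by nlinarith
  refine ge_of_tendsto (t1.sub t2) ?_
  have hev : ∀ᶠ δ : ℝ in nhdsWithin 0 (Set.Ioi 0),
      0 < δ ∧ δ < min (c + s - 1) (min (2 / 5 * s) (2 / 5 * c)) := by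
    have hm : 0 < min (c + s - 1) (min (2 / 5 * s) (2 / 5 * c)) := by
      refine lt_min hpos (lt_min (by positivity) (by positivity))
    filter_upwards [Ioo_mem_nhdsGT hm] with δ hδ
    exact ⟨hδ.1, hδ.2⟩
  filter_upwards [hev] with δ hδ
  exact ineq_delta hC hB hT hc hs hcs hδ.1 (lt_of_lt_of_le hδ.2 (min_le_left _ _))
    (lt_of_lt_of_le hδ.2 ((min_le_right _ _).trans (min_le_left _ _)))
    (lt_of_lt_of_le hδ.2 ((min_le_right _ _).trans (min_le_right _ _)))

/-- The second touching inequality, by reflection in the origin. -/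
theorem ineq_two {B T : ℝ → ℝ} (hC : Catch B T) (hB : Flat B) (hT : Flat T)
    (hBc : ContinuousOn B (Set.Icc (-1 / 2) (1 / 2)))
    (hTc : ContinuousOn T (Set.Icc (-1 / 2) (1 / 2))) {c s : ℝ}
    (hc : 0 < c) (hs : 0 < s) (hcs : c ^ 2 + s ^ 2 = 1) :
    c + s ≤ T (c - 1 / 2) - B (s - 1 / 2) := by
  have hneg : Set.MapsTo (fun x : ℝ => -x) (Set.Icc (-1 / 2) (1 / 2)) (Set.Icc (-1 / 2) (1 / 2)) := by
    intro x hx
    exact ⟨by linarith [hx.2], by linarith [hx.1]⟩
  have h := ineq_one hC.reflect hT.reflect hB.reflect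
    ((hTc.comp continuous_neg.continuousOn hneg).neg)
    ((hBc.comp continuous_neg.continuousOn hneg).neg) hc hs hcs
  have e1 : -(1 / 2 - s) = s - 1 / 2 := by ring
  have e2 : -(1 / 2 - c) = c - 1 / 2 := by ring
  simp only [e1, e2] at h
  linarith

end Pool.Agent.H704.LC
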