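import Pool.Agent.H704.LC.Comb

/-!
# Integration of the touching inequalities
-/

set_option autoImplicit false

namespace Pool.Agent.H704.LC

open MeasureTheory intervalIntegral Real

theorem int_top {F : ℝ → ℝ} (hF : Continuous F) :
    ∫ θ in (0 : ℝ)..(π / 2), sin θ * cos θ * (F (1 / 2 - sin θ) + F (cos θ - 1 / 2))
      = ∫ x in (-1 / 2 : ℝ)..(1 / 2), F x := by
  have h1 : ∫ θ in (0 : ℝ)..(π / 2), ((fun x => (1 / 2 - x) * F x) ∘ (fun θ => 1 / 2 - sin θ)) θ
      * (-cos θ) = ∫ u in (1 / 2 - sin 0)..(1 / 2 - sin (π / 2)), (1 / 2 - u) * F u := by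
    refine intervalIntegral.integral_comp_mul_deriv (fun x _ => ?_) ?_ ?_
    · have := (hasDerivAt_sin x).const_sub (1 / 2)
      simpa using this
    · exact (continuous_cos.neg).continuousOn
    · exact (continuous_const.sub continuous_id).mul hF
  have h2 : ∫ θ in (0 : ℝ)..(π / 2), ((fun x => (x + 1 / 2) * F x) ∘ (fun θ => cos θ - 1 / 2)) θ
      * (-sin θ) = ∫ u in (cos 0 - 1 / 2)..(cos (π / 2) - 1 / 2), (u + 1 / 2) * F u := by
    refine intervalIntegral.integral_comp_mul_deriv (fun x _ => ?_) ?_ ?_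
    · have := (hasDerivAt_cos x).sub_const (1 / 2)
      simpa using this
    · exact (continuous_sin.neg).continuousOn
    · exact (continuous_id.add continuous_const).mul hF
  have e1 : (1 / 2 - sin (π / 2) : ℝ) = -1 / 2 := by rw [sin_pi_div_two]; norm_num
  have e2 : (cos (π / 2) - 1 / 2 : ℝ) = -1 / 2 := by rw [cos_pi_div_two]; norm_num
  have e3 : (1 / 2 - sin 0 : ℝ) = 1 / 2 := by rw [sin_zero]; norm_num
  have e4 : (cos 0 - 1 / 2 : ℝ) = 1 / 2 := by rw [cos_zero]; norm_num
  rw [e1, e3] at h1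
  rw [e2, e4] at h2
  have c1 : Continuous (fun θ : ℝ => ((fun x => (1 / 2 - x) * F x) ∘ (fun θ => 1 / 2 - sin θ)) θ
      * (-cos θ)) := by
    refine Continuous.mul ?_ continuous_cos.neg
    exact ((continuous_const.sub continuous_id).mul hF).comp (continuous_const.sub continuous_sin)
  have c2 : Continuous (fun θ : ℝ => ((fun x => (x + 1 / 2) * F x) ∘ (fun θ => cos θ - 1 / 2)) θ
      * (-sin θ)) := by
    refine Continuous.mul ?_ continuous_sin.neg
    exact ((continuous_id.add continuous_const).mul hF).comp (continuous_cos.sub continuous_const)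
  have hsum : ∫ θ in (0 : ℝ)..(π / 2), sin θ * cos θ * (F (1 / 2 - sin θ) + F (cos θ - 1 / 2))
      = -((∫ θ in (0 : ℝ)..(π / 2), ((fun x => (1 / 2 - x) * F x) ∘ (fun θ => 1 / 2 - sin θ)) θ
      * (-cos θ)) + ∫ θ in (0 : ℝ)..(π / 2),
        ((fun x => (x + 1 / 2) * F x) ∘ (fun θ => cos θ - 1 / 2)) θ * (-sin θ)) := by
    rw [← intervalIntegral.integral_add (c1.intervalIntegrable _ _) (c2.intervalIntegrable _ _),
      ← intervalIntegral.integral_neg]
    refine intervalIntegral.integral_congr (fun θ _ => ?_)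
    simp only [Function.comp]
    ring
  rw [hsum, h1, h2]
  have k1 : Continuous (fun u : ℝ => (1 / 2 - u) * F u) :=
    (continuous_const.sub continuous_id).mul hF
  have k2 : Continuous (fun u : ℝ => (u + 1 / 2) * F u) :=
    (continuous_id.add continuous_const).mul hF
  rw [← intervalIntegral.integral_add (k1.intervalIntegrable _ _) (k2.intervalIntegrable _ _),
    ← intervalIntegral.integral_symm]
  refine intervalIntegral.integral_congr (fun θ _ => ?_)
  ring

theorem int_bot {F : ℝ → ℝ} (hF : Continuous F) :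
    ∫ θ in (0 : ℝ)..(π / 2), sin θ * cos θ * (F (1 / 2 - cos θ) + F (sin θ - 1 / 2))
      = ∫ x in (-1 / 2 : ℝ)..(1 / 2), F x := by
  have h := int_top (F := fun x => F (-x)) (hF.comp continuous_neg)
  have e : ∫ x in (-1 / 2 : ℝ)..(1 / 2), F (-x) = ∫ x in (-1 / 2 : ℝ)..(1 / 2), F x := by
    rw [intervalIntegral.integral_comp_neg]
    norm_num
  rw [e] at h
  rw [← h]
  refine intervalIntegral.integral_congr (fun θ _ => ?_)
  have e1 : -(1 / 2 - sin θ) = sin θ - 1 / 2 := by ring
  have e2 : -(cos θ - 1 / 2) = 1 / 2 - cos θ := by ring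
  rw [e1, e2]
  ring

theorem int_rhs : ∫ θ in (0 : ℝ)..(π / 2), sin θ * cos θ * (2 * (cos θ + sin θ)) = 4 / 3 := by
  have hd : ∀ θ : ℝ, HasDerivAt (fun t : ℝ => 2 / 3 * sin t ^ 3 - 2 / 3 * cos t ^ 3)
      (sin θ * cos θ * (2 * (cos θ + sin θ))) θ := by
    intro θ
    have a1 := ((hasDerivAt_sin θ).pow 3).const_mul (2 / 3 : ℝ)
    have a2 := ((hasDerivAt_cos θ).pow 3).const_mul (2 / 3 : ℝ)
    have a3 := a1.sub a2
    refine a3.congr_deriv ?_
    push_cast
    ring
  rw [intervalIntegral.integral_eq_sub_of_hasDerivAt (fun θ _ => hd θ)]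
  · simp
    norm_num
  · apply Continuous.intervalIntegrable
    fun_prop

/-- The main inequality. -/
theorem main_int {B T : ℝ → ℝ} (hC : Catch B T) (hB : Flat B) (hT : Flat T)
    (hBc : Continuous B) (hTc : Continuous T) :
    (4 : ℝ) / 3 ≤ ∫ x in (-1 / 2 : ℝ)..(1 / 2), (T x - B x) := by
  rw [intervalIntegral.integral_sub (hTc.intervalIntegrable _ _) (hBc.intervalIntegrable _ _),
    ← int_top hTc, ← int_bot hBc]
  have cT : Continuous (fun θ : ℝ => sin θ * cos θ * (T (1 / 2 - sin θ) + T (cos θ - 1 / 2))) := by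
    fun_prop
  have cB : Continuous (fun θ : ℝ => sin θ * cos θ * (B (1 / 2 - cos θ) + B (sin θ - 1 / 2))) := by
    fun_prop
  rw [← intervalIntegral.integral_sub (cT.intervalIntegrable _ _) (cB.intervalIntegrable _ _),
    ← int_rhs]
  have hpi : (0 : ℝ) ≤ π / 2 := by positivity
  refine intervalIntegral.integral_mono_on hpi ?_ ((cT.sub cB).intervalIntegrable _ _) ?_
  · apply Continuous.intervalIntegrable
    fun_prop
  · intro θ hθ
    have hs0 : 0 ≤ sin θ := sin_nonneg_of_nonneg_of_le_pi hθ.1 (by linarith [hθ.2, pi_pos])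
    have hc0 : 0 ≤ cos θ := cos_nonneg_of_neg_pi_div_two_le_of_le (by linarith [hθ.1, pi_pos]) hθ.2
    rcases hs0.eq_or_lt with h | hs
    · rw [← h]; simp
    rcases hc0.eq_or_lt with h | hc
    · rw [← h]; simp
    have hcs : cos θ ^ 2 + sin θ ^ 2 = 1 := cos_sq_add_sin_sq θ
    have i1 := ineq_one hC hB hT hBc.continuousOn hTc.continuousOn hc hs hcs
    have i2 := ineq_two hC hB hT hBc.continuousOn hTc.continuousOn hc hs hcs
    have hp : 0 ≤ sin θ * cos θ := mul_nonneg hs.le hc.le
    calc sin θ * cos θ * (2 * (cos θ + sin θ))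
        ≤ sin θ * cos θ * ((T (1 / 2 - sin θ) + T (cos θ - 1 / 2))
            - (B (1 / 2 - cos θ) + B (sin θ - 1 / 2))) := by
          apply mul_le_mul_of_nonneg_left _ hp
          linarith
      _ = _ := by ring

end Pool.Agent.H704.LC
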