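import Pool.Agent.H704.LC.Uniq

/-!
# The set `K` meets the lattice in every position
-/

set_option autoImplicit false

namespace Pool.Agent.H704.LC

open Real

/-- The weak form of `lattice-catching` for `K`, for one rotation. -/
def KHit (c s x y : ℝ) : Prop :=
  ∃ a b : ℤ, |x + a * c - b * s| ≤ 1 / 2 ∧ (x + a * c - b * s) ^ 2 - 3 / 4 ≤ y + a * s + b * c ∧
    y + a * s + b * c ≤ 3 / 4 - (x + a * c - b * s) ^ 2

theorem khit_core {c s : ℝ} (hs : 0 ≤ s) (hsc : s ≤ c) (hcs : c ^ 2 + s ^ 2 = 1) (x y : ℝ) :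
    KHit c s x y := by
  by_contra hno
  have hc : 0 < c := by
    rcases (hs.trans hsc).eq_or_lt with h | h
    · exfalso; rw [← h] at hcs hsc; nlinarith
    · exact h
  have hc1 : c ≤ 1 := by nlinarith
  have hs1 : s ≤ 1 := by nlinarith
  have hN : ∀ a b : ℤ, |x + a * c - b * s| ≤ 1 / 2 →
      y + a * s + b * c ≤ 3 / 4 - (x + a * c - b * s) ^ 2 →
      y + a * s + b * c < (x + a * c - b * s) ^ 2 - 3 / 4 := by
    intro a b h1 h2
    by_contra h3
    push Not at h3
    exact hno ⟨a, b, h1, h3, h2⟩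
  set η : ℝ := if s = 0 then c else s with hη
  have hη0 : 0 < η := by
    rw [hη]; split_ifs with h
    · exact hc
    · exact lt_of_le_of_ne hs (Ne.symm h)
  have hηc : η ≤ c := by
    rw [hη]; split_ifs <;> linarith
  have hηs : 0 < s → η ≤ s := by
    intro h
    rw [hη, if_neg h.ne']
  -- one step upwards
  have hstep : ∀ a b : ℤ, |x + a * c - b * s| ≤ 1 / 2 →
      y + a * s + b * c < (x + a * c - b * s) ^ 2 - 3 / 4 →
      ∃ a' b' : ℤ, |x + a' * c - b' * s| ≤ 1 / 2 ∧
        y + a' * s + b' * c < (x + a' * c - b' * s) ^ 2 - 3 / 4 ∧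
        y + a * s + b * c + η ≤ y + a' * s + b' * c := by
    intro a b h1 h2
    obtain ⟨X, hX⟩ : ∃ X : ℝ, X = x + a * c - b * s := ⟨_, rfl⟩
    obtain ⟨Y, hY⟩ : ∃ Y : ℝ, Y = y + a * s + b * c := ⟨_, rfl⟩
    rw [← hX] at h1 h2
    rw [← hY] at h2 ⊢
    rw [abs_le] at h1
    rcases le_or_gt (-1 / 2) (X - s) with hA | hA
    · -- step (-s, c)
      have eX : x + (a : ℝ) * c - ((b + 1 : ℤ) : ℝ) * s = X - s := by
        push_cast; rw [hX]; ring
      have eY : y + (a : ℝ) * s + ((b + 1 : ℤ) : ℝ) * c = Y + c := by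
        push_cast; rw [hY]; ring
      have hb : |x + (a : ℝ) * c - ((b + 1 : ℤ) : ℝ) * s| ≤ 1 / 2 := by
        rw [eX, abs_le]; constructor <;> linarith [h1.2]
      refine ⟨a, b + 1, hb, hN a (b + 1) hb ?_, ?_⟩
      · rw [eX, eY]
        have : (X - 1 / 2) * (X - s + 1 / 2) ≤ 0 :=
          mul_nonpos_of_nonpos_of_nonneg (by linarith [h1.2]) (by linarith)
        nlinarith
      · rw [eY]; linarith
    · have hs0 : 0 < s := by linarith [h1.1]
      have hηs' := hηs hs0
      rcases le_or_gt (X + c) (1 / 2) with hB | hB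
      · -- step (c, s)
        have eX : x + ((a + 1 : ℤ) : ℝ) * c - (b : ℝ) * s = X + c := by
          push_cast; rw [hX]; ring
        have eY : y + ((a + 1 : ℤ) : ℝ) * s + (b : ℝ) * c = Y + s := by
          push_cast; rw [hY]; ring
        have hb : |x + ((a + 1 : ℤ) : ℝ) * c - (b : ℝ) * s| ≤ 1 / 2 := by
          rw [eX, abs_le]; constructor <;> linarith [h1.1]
        refine ⟨a + 1, b, hb, hN (a + 1) b hb ?_, ?_⟩
        · rw [eX, eY]
          have : (X + 1 / 2) * (X + c - 1 / 2) ≤ 0 :=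
            mul_nonpos_of_nonneg_of_nonpos (by linarith [h1.1]) (by linarith)
          nlinarith
        · rw [eY]; linarith
      · -- step (c - s, c + s)
        have eX : x + ((a + 1 : ℤ) : ℝ) * c - ((b + 1 : ℤ) : ℝ) * s = X + c - s := by
          push_cast; rw [hX]; ring
        have eY : y + ((a + 1 : ℤ) : ℝ) * s + ((b + 1 : ℤ) : ℝ) * c = Y + c + s := by
          push_cast; rw [hY]; ring
        have hb : |x + ((a + 1 : ℤ) : ℝ) * c - ((b + 1 : ℤ) : ℝ) * s| ≤ 1 / 2 := by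
          rw [eX, abs_le]; constructor <;> linarith
        refine ⟨a + 1, b + 1, hb, hN (a + 1) (b + 1) hb ?_, ?_⟩
        · rw [eX, eY]
          have : (X - 1 / 2 + c) * (X - s + 1 / 2) ≤ 0 :=
            mul_nonpos_of_nonneg_of_nonpos (by linarith) (by linarith)
          nlinarith
        · rw [eY]; linarith
  -- a point far below
  obtain ⟨a0, b0, h1, h2⟩ : ∃ a b : ℤ, |x + a * c - b * s| ≤ 1 / 2 ∧
      y + a * s + b * c < (x + a * c - b * s) ^ 2 - 3 / 4 := by
    obtain ⟨N, hN'⟩ := exists_nat_gt (|y| + |x| * s / c + s / 2 + 1)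
    have hr := abs_sub_round (((-(N : ℤ) : ℤ) : ℝ) * s / c - x / c)
    set a := round (((-(N : ℤ) : ℤ) : ℝ) * s / c - x / c) with ha
    have hd : |x + (a : ℝ) * c - ((-(N : ℤ) : ℤ) : ℝ) * s| ≤ 1 / 2 := by
      have e : x + (a : ℝ) * c - ((-(N : ℤ) : ℤ) : ℝ) * s
          = -((((-(N : ℤ) : ℤ) : ℝ) * s / c - x / c - a) * c) := by
        field_simp
        ring
      rw [e, abs_neg, abs_mul, abs_of_pos hc]
      calc _ ≤ 1 / 2 * c := mul_le_mul_of_nonneg_right hr hc.le
        _ ≤ 1 / 2 * 1 := by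
          apply mul_le_mul_of_nonneg_left hc1 (by norm_num)
        _ = 1 / 2 := by norm_num
    refine ⟨a, -(N : ℤ), hd, ?_⟩
    have ha' : (a : ℝ) ≤ ((-(N : ℤ) : ℤ) : ℝ) * s / c - x / c + 1 / 2 := by
      have := (abs_le.mp hr).1
      linarith
    have h3 : (a : ℝ) * s ≤ (((-(N : ℤ) : ℤ) : ℝ) * s / c - x / c + 1 / 2) * s :=
      mul_le_mul_of_nonneg_right ha' hs
    have h4 : (((-(N : ℤ) : ℤ) : ℝ) * s / c - x / c + 1 / 2) * s + ((-(N : ℤ) : ℤ) : ℝ) * c
        = -(N : ℝ) / c - x * s / c + s / 2 := by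
      push_cast
      field_simp
      linear_combination (-2 * (N : ℝ)) * hcs
    have h5 : (N : ℝ) ≤ N / c := by
      rw [le_div_iff₀ hc]
      nlinarith [Nat.cast_nonneg (α := ℝ) N]
    have h6 : -(x * s / c) ≤ |x| * s / c := by
      rw [← neg_div]
      apply div_le_div_of_nonneg_right _ hc.le
      have := neg_abs_le x
      nlinarith
    have h7 : y ≤ |y| := le_abs_self y
    have h8 : -(N : ℝ) / c = -(N / c) := by ring
    rw [h8] at h4
    nlinarith [sq_nonneg (x + (a : ℝ) * c - ((-(N : ℤ) : ℤ) : ℝ) * s)]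
  -- induction
  have hind : ∀ k : ℕ, ∃ a b : ℤ, |x + a * c - b * s| ≤ 1 / 2 ∧
      y + a * s + b * c < (x + a * c - b * s) ^ 2 - 3 / 4 ∧
      y + a0 * s + b0 * c + k * η ≤ y + a * s + b * c := by
    intro k
    induction k with
    | zero => exact ⟨a0, b0, h1, h2, by simp⟩
    | succ k ih =>
      obtain ⟨a, b, g1, g2, g3⟩ := ih
      obtain ⟨a', b', f1, f2, f3⟩ := hstep a b g1 g2
      refine ⟨a', b', f1, f2, ?_⟩
      push_cast
      linarith
  obtain ⟨k, hk⟩ := exists_nat_gt ((-(y + a0 * s + b0 * c)) / η)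
  obtain ⟨a, b, g1, g2, g3⟩ := hind k
  rw [div_lt_iff₀ hη0] at hk
  have g4 : (x + a * c - b * s) ^ 2 ≤ (1 / 2) ^ 2 := by
    rw [← sq_abs]
    exact pow_le_pow_left₀ (abs_nonneg _) g1 2
  nlinarith

theorem khit_mirror {c s x y : ℝ} (h : KHit c s (-x) y) : KHit c (-s) x y := by
  obtain ⟨a, b, h1, h2, h3⟩ := h
  refine ⟨-a, b, ?_, ?_, ?_⟩
  · have e : x + ((-a : ℤ) : ℝ) * c - b * (-s) = -(-x + a * c - b * s) := by push_cast; ring
    rw [e, abs_neg]; exact h1
  · have e : x + ((-a : ℤ) : ℝ) * c - b * (-s) = -(-x + a * c - b * s) := by push_cast; ring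
    have e2 : y + ((-a : ℤ) : ℝ) * (-s) + b * c = y + a * s + b * c := by push_cast; ring
    rw [e, e2, neg_sq]; exact h2
  · have e : x + ((-a : ℤ) : ℝ) * c - b * (-s) = -(-x + a * c - b * s) := by push_cast; ring
    have e2 : y + ((-a : ℤ) : ℝ) * (-s) + b * c = y + a * s + b * c := by push_cast; ring
    rw [e, e2, neg_sq]; exact h3

theorem khit_rot {c s x y : ℝ} (h : KHit (-s) c x y) : KHit c s x y := by
  obtain ⟨a, b, h1, h2, h3⟩ := h
  refine ⟨-b, a, ?_, ?_, ?_⟩
  · have e : x + ((-b : ℤ) : ℝ) * c - a * s = x + a * (-s) - b * c := by push_cast; ring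
    rw [e]; exact h1
  · have e : x + ((-b : ℤ) : ℝ) * c - a * s = x + a * (-s) - b * c := by push_cast; ring
    have e2 : y + ((-b : ℤ) : ℝ) * s + a * c = y + a * c + b * (-s) := by push_cast; ring
    rw [e, e2]; exact h2
  · have e : x + ((-b : ℤ) : ℝ) * c - a * s = x + a * (-s) - b * c := by push_cast; ring
    have e2 : y + ((-b : ℤ) : ℝ) * s + a * c = y + a * c + b * (-s) := by push_cast; ring
    rw [e, e2]; exact h3

theorem khit_pos {c s : ℝ} (hsc : |s| ≤ c) (hcs : c ^ 2 + s ^ 2 = 1) (x y : ℝ) : KHit c s x y := by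
  rcases le_total 0 s with h | h
  · exact khit_core h (by rwa [abs_of_nonneg h] at hsc) hcs x y
  · have := khit_mirror (c := c) (s := -s) (x := x) (y := y)
      (khit_core (by linarith) (by rwa [abs_of_nonpos h] at hsc) (by rw [neg_sq]; exact hcs) (-x) y)
    rwa [neg_neg] at this

theorem khit_all {c s : ℝ} (hcs : c ^ 2 + s ^ 2 = 1) (x y : ℝ) : KHit c s x y := by
  rcases le_total (|s|) (|c|) with h | h
  · rcases le_total 0 c with hc | hc
    · exact khit_pos (by rwa [abs_of_nonneg hc] at h) hcs x y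
    · apply khit_rot; apply khit_rot
      exact khit_pos (by rw [abs_neg]; rwa [abs_of_nonpos hc] at h) (by nlinarith) x y
  · rcases le_total 0 s with hc | hc
    · apply khit_rot; apply khit_rot; apply khit_rot
      refine khit_pos ?_ (by nlinarith) x y
      rw [neg_neg, abs_neg]; rwa [abs_of_nonneg hc] at h
    · apply khit_rot
      refine khit_pos ?_ (by nlinarith) x y
      rwa [abs_of_nonpos hc] at h

end Pool.Agent.H704.LC
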