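import Pool.Agent.H704.LC.Integ

/-!
# The equality case
-/

set_option autoImplicit false

namespace Pool.Agent.H704.LC

open MeasureTheory intervalIntegral Real

/-- Equality in `main_int` forces equality in all touching inequalities. -/
theorem eq_all {B T : ℝ → ℝ} (hC : Catch B T) (hB : Flat B) (hT : Flat T)
    (hBc : Continuous B) (hTc : Continuous T)
    (he : ∫ x in (-1 / 2 : ℝ)..(1 / 2), (T x - B x) = 4 / 3) {c s : ℝ}
    (hc : 0 < c) (hs : 0 < s) (hcs : c ^ 2 + s ^ 2 = 1) :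
    T (1 / 2 - s) - B (1 / 2 - c) = c + s ∧ T (c - 1 / 2) - B (s - 1 / 2) = c + s := by
  have i1 := ineq_one hC hB hT hBc.continuousOn hTc.continuousOn hc hs hcs
  have i2 := ineq_two hC hB hT hBc.continuousOn hTc.continuousOn hc hs hcs
  by_contra hne
  have hlt : 2 * (c + s) < (T (1 / 2 - s) + T (c - 1 / 2)) - (B (1 / 2 - c) + B (s - 1 / 2)) := by
    rcases i1.eq_or_lt with h1 | h1
    · rcases i2.eq_or_lt with h2 | h2
      · exact absurd ⟨h1.symm, h2.symm⟩ hne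
      · linarith
    · linarith
  -- the angle
  have hs1 : s < 1 := by nlinarith
  set θ := arcsin s with hθ
  have hsθ : sin θ = s := sin_arcsin (by linarith) hs1.le
  have hcθ : cos θ = c := by
    rw [hθ, cos_arcsin]
    have : 1 - s ^ 2 = c ^ 2 := by linarith
    rw [this, sqrt_sq hc.le]
  have hθ0 : 0 ≤ θ := arcsin_nonneg.mpr hs.le
  have hθ1 : θ ≤ π / 2 := arcsin_le_pi_div_two s
  have key : ∫ θ in (0 : ℝ)..(π / 2), sin θ * cos θ * (2 * (cos θ + sin θ))
      < ∫ θ in (0 : ℝ)..(π / 2), (sin θ * cos θ * ((T (1 / 2 - sin θ) + T (cos θ - 1 / 2))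
            - (B (1 / 2 - cos θ) + B (sin θ - 1 / 2)))) := by
    refine intervalIntegral.integral_lt_integral_of_continuousOn_of_le_of_exists_lt
      (by positivity) ?_ ?_ ?_ ⟨θ, ⟨hθ0, hθ1⟩, ?_⟩
    · apply Continuous.continuousOn; fun_prop
    · apply Continuous.continuousOn; fun_prop
    · intro φ hφ
      have hs0 : 0 ≤ sin φ := sin_nonneg_of_nonneg_of_le_pi hφ.1.le (by linarith [hφ.2, pi_pos])
      have hc0 : 0 ≤ cos φ :=
        cos_nonneg_of_neg_pi_div_two_le_of_le (by linarith [hφ.1, pi_pos]) hφ.2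
      rcases hs0.eq_or_lt with h | hs
      · rw [← h]; simp
      rcases hc0.eq_or_lt with h | hc
      · rw [← h]; simp
      have hcs : cos φ ^ 2 + sin φ ^ 2 = 1 := cos_sq_add_sin_sq φ
      have i1 := ineq_one hC hB hT hBc.continuousOn hTc.continuousOn hc hs hcs
      have i2 := ineq_two hC hB hT hBc.continuousOn hTc.continuousOn hc hs hcs
      have hp : 0 ≤ sin φ * cos φ := mul_nonneg hs.le hc.le
      apply mul_le_mul_of_nonneg_left _ hp
      linarith
    · rw [hsθ, hcθ]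
      exact mul_lt_mul_of_pos_left hlt (mul_pos hs hc)
  rw [int_rhs] at key
  rw [intervalIntegral.integral_sub (hTc.intervalIntegrable _ _) (hBc.intervalIntegrable _ _),
    ← int_top hTc, ← int_bot hBc] at he
  have cT : Continuous (fun θ : ℝ => sin θ * cos θ * (T (1 / 2 - sin θ) + T (cos θ - 1 / 2))) := by
    fun_prop
  have cB : Continuous (fun θ : ℝ => sin θ * cos θ * (B (1 / 2 - cos θ) + B (sin θ - 1 / 2))) := by
    fun_prop
  rw [← intervalIntegral.integral_sub (cT.intervalIntegrable _ _) (cB.intervalIntegrable _ _)] at he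
  have hcongr : ∫ θ in (0 : ℝ)..(π / 2), (sin θ * cos θ * ((T (1 / 2 - sin θ) + T (cos θ - 1 / 2))
            - (B (1 / 2 - cos θ) + B (sin θ - 1 / 2))))
      = ∫ θ in (0 : ℝ)..(π / 2), (sin θ * cos θ * (T (1 / 2 - sin θ) + T (cos θ - 1 / 2))
          - sin θ * cos θ * (B (1 / 2 - cos θ) + B (sin θ - 1 / 2))) := by
    refine intervalIntegral.integral_congr (fun θ _ => ?_)
    ring
  rw [hcongr, he] at key
  exact lt_irrefl _ key

theorem sig_pos {s : ℝ} (h0 : 0 < s) (_h1 : s < 1) : 0 < 1 - √(1 - s ^ 2) := by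
  have : √(1 - s ^ 2) < 1 := by
    rw [sqrt_lt' one_pos]; nlinarith
  linarith

theorem sig_le {s : ℝ} (h0 : 0 < s) (h1 : s < 1) : 1 - √(1 - s ^ 2) ≤ s ^ 2 := by
  have : 1 - s ^ 2 ≤ √(1 - s ^ 2) := by
    apply le_sqrt_of_sq_le
    have h2 : (0 : ℝ) ≤ 1 - s ^ 2 := by nlinarith
    have h3 := mul_nonneg (sq_nonneg s) h2
    nlinarith
  linarith

theorem sig_lt {s : ℝ} (h0 : 0 < s) (h1 : s < 1) : 1 - √(1 - s ^ 2) < 1 := by
  have : 0 < √(1 - s ^ 2) := sqrt_pos.mpr (by nlinarith)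
  linarith

/-- Rigidity. -/
theorem rigid {B T : ℝ → ℝ} (hBc : Continuous B) (hTc : Continuous T)
    (h : ∀ c s : ℝ, 0 < c → 0 < s → c ^ 2 + s ^ 2 = 1 →
      T (1 / 2 - s) - B (1 / 2 - c) = c + s ∧ T (c - 1 / 2) - B (s - 1 / 2) = c + s) :
    ∃ κ : ℝ, ∀ x ∈ Set.Icc (-1 / 2 : ℝ) (1 / 2), B x = x ^ 2 - 3 / 4 + κ ∧ T x = 3 / 4 - x ^ 2 + κ := by
  set G : ℝ → ℝ := fun s => T (1 / 2 - s) - (3 / 4 - (1 / 2 - s) ^ 2) with hG
  have cG : Continuous G := by
    rw [hG]; fun_prop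
  -- one step
  have hBG : ∀ s : ℝ, 0 < s → s < 1 →
      B (1 / 2 - √(1 - s ^ 2)) - ((1 / 2 - √(1 - s ^ 2)) ^ 2 - 3 / 4) = G s := by
    intro s h0 h1
    have hp : 0 < 1 - s ^ 2 := by nlinarith
    have hc : 0 < √(1 - s ^ 2) := sqrt_pos.mpr hp
    have hcs : √(1 - s ^ 2) ^ 2 + s ^ 2 = 1 := by rw [sq_sqrt hp.le]; ring
    have e := (h _ s hc h0 hcs).1
    simp only [hG]
    nlinarith
  have hstep : ∀ s : ℝ, 0 < s → s < 1 →
      G s = G (1 - √(1 - (1 - √(1 - s ^ 2)) ^ 2)) := by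
    intro s h0 h1
    set r := 1 - √(1 - s ^ 2) with hr
    have r0 : 0 < r := sig_pos h0 h1
    have r1 : r < 1 := sig_lt h0 h1
    have hp : 0 < 1 - r ^ 2 := by nlinarith
    have hc : 0 < √(1 - r ^ 2) := sqrt_pos.mpr hp
    have hcs : √(1 - r ^ 2) ^ 2 + r ^ 2 = 1 := by rw [sq_sqrt hp.le]; ring
    have e := (h _ r hc r0 hcs).2
    have e1 := hBG s h0 h1
    have e2 : 1 / 2 - √(1 - s ^ 2) = r - 1 / 2 := by rw [hr]; ring
    rw [e2] at e1
    rw [← e1]
    simp only [hG]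
    have e3 : 1 / 2 - (1 - √(1 - r ^ 2)) = √(1 - r ^ 2) - 1 / 2 := by ring
    rw [e3]
    nlinarith
  have hconst : ∀ s : ℝ, 0 < s → s < 1 → G s = G 0 := by
    intro s h0 h1
    have hseq : ∀ n : ℕ, ∃ t : ℝ, 0 < t ∧ t < 1 ∧ t ≤ s ^ (n + 1) ∧ G t = G s := by
      intro n
      induction n with
      | zero => exact ⟨s, h0, h1, by simp, rfl⟩
      | succ n ih =>
        obtain ⟨t, t0, t1, t2, t3⟩ := ih
        have r0 := sig_pos t0 t1
        have r1 := sig_lt t0 t1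
        have rl := sig_le t0 t1
        set r := 1 - √(1 - t ^ 2) with hr
        have q0 := sig_pos r0 r1
        have q1 := sig_lt r0 r1
        have ql := sig_le r0 r1
        refine ⟨1 - √(1 - r ^ 2), q0, q1, ?_, ?_⟩
        · have hts : t ≤ s := by
            refine t2.trans ?_
            calc s ^ (n + 1) = s ^ n * s := pow_succ s n
              _ ≤ 1 * s := by
                apply mul_le_mul_of_nonneg_right (pow_le_one₀ h0.le h1.le) h0.le
              _ = s := one_mul s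
          have a1 : r ^ 2 ≤ r := by nlinarith
          have a2 : t ^ 2 ≤ s ^ (n + 1) * s := by
            rw [sq]
            exact mul_le_mul t2 hts t0.le (by positivity)
          calc 1 - √(1 - r ^ 2) ≤ r ^ 2 := ql
            _ ≤ r := a1
            _ ≤ t ^ 2 := rl
            _ ≤ s ^ (n + 1) * s := a2
            _ = s ^ (n + 1 + 1) := (pow_succ s (n + 1)).symm
        · rw [← t3]
          exact (hstep t t0 t1).symm
    choose t t0 t1 t2 t3 using hseq
    have hlim : Filter.Tendsto t Filter.atTop (nhds 0) := by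
      have hz : Filter.Tendsto (fun n : ℕ => s ^ (n + 1)) Filter.atTop (nhds 0) :=
        (tendsto_pow_atTop_nhds_zero_of_lt_one h0.le h1).comp (Filter.tendsto_add_atTop_nat 1)
      exact tendsto_of_tendsto_of_tendsto_of_le_of_le tendsto_const_nhds hz
        (fun n => (t0 n).le) t2
    have h2 : Filter.Tendsto (fun n => G (t n)) Filter.atTop (nhds (G 0)) :=
      (cG.tendsto 0).comp hlim
    have h3 : (fun n => G (t n)) = fun _ => G s := funext t3
    rw [h3] at h2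
    exact tendsto_nhds_unique tendsto_const_nhds h2
  refine ⟨G 0, ?_⟩
  have hT1 : ∀ x ∈ Set.Ioo (-1 / 2 : ℝ) (1 / 2), T x = 3 / 4 - x ^ 2 + G 0 := by
    intro x hx
    have e := hconst (1 / 2 - x) (by linarith [hx.2]) (by linarith [hx.1])
    have e2 : G (1 / 2 - x) = T x - (3 / 4 - x ^ 2) := by
      simp only [hG]
      have : 1 / 2 - (1 / 2 - x) = x := by ring
      rw [this]
    rw [e2] at e
    linarith
  have hB1 : ∀ x ∈ Set.Ioo (-1 / 2 : ℝ) (1 / 2), B x = x ^ 2 - 3 / 4 + G 0 := by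
    intro x hx
    -- choose s with 1/2 - sqrt (1 - s^2) = x
    have hc0 : 0 < 1 / 2 - x := by linarith [hx.2]
    have hc1 : 1 / 2 - x < 1 := by linarith [hx.1]
    have hp : 0 < 1 - (1 / 2 - x) ^ 2 := by nlinarith
    have s0 : 0 < √(1 - (1 / 2 - x) ^ 2) := sqrt_pos.mpr hp
    have s1 : √(1 - (1 / 2 - x) ^ 2) < 1 := by
      rw [sqrt_lt' one_pos]; nlinarith
    have e := hBG _ s0 s1
    rw [hconst _ s0 s1, sq_sqrt hp.le] at e
    have e2 : √(1 - (1 - (1 / 2 - x) ^ 2)) = 1 / 2 - x := by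
      have : 1 - (1 - (1 / 2 - x) ^ 2) = (1 / 2 - x) ^ 2 := by ring
      rw [this, sqrt_sq hc0.le]
    rw [e2] at e
    have e3 : 1 / 2 - (1 / 2 - x) = x := by ring
    rw [e3] at e
    linarith
  have hcl : closure (Set.Ioo (-1 / 2 : ℝ) (1 / 2)) = Set.Icc (-1 / 2) (1 / 2) :=
    closure_Ioo (by norm_num)
  have hT2 : Set.Icc (-1 / 2 : ℝ) (1 / 2) ⊆ {x | T x = 3 / 4 - x ^ 2 + G 0} := by
    rw [← hcl]
    exact closure_minimal hT1 (isClosed_eq hTc (by fun_prop))
  have hB2 : Set.Icc (-1 / 2 : ℝ) (1 / 2) ⊆ {x | B x = x ^ 2 - 3 / 4 + G 0} := by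
    rw [← hcl]
    exact closure_minimal hB1 (isClosed_eq hBc (by fun_prop))
  exact fun x hx => ⟨hB2 hx, hT2 hx⟩

end Pool.Agent.H704.LC
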